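import Pool.Agent.H34.FQ.Targets
import Pool.Agent.H32.RQ.MN

/-!
Row MN1 of the board hfq_modules (`MP_63b6b1_nt`): almost all robust forms have a small zero.
-/

set_option autoImplicit false

open Finset Pool.Agent.H32.RQ Pool.Agent.H34.FQ

namespace Pool.Agent.H34.HFQ

namespace Mn1

/-- the choice of the size -/
theorem size (k : ℕ) (y : ℝ) (hk : 1 ≤ k) (hy : 2 ≤ y) : ∃ X : ℕ, 2 ≤ X ∧
    y ≤ (X : ℝ) ^ k ∧ (X : ℝ) ^ k ≤ 2 ^ k * y := by
  classical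
  have hex : ∃ X : ℕ, y ≤ (X : ℝ) ^ k := by
    obtain ⟨m, hm⟩ := exists_nat_ge y
    refine ⟨m, hm.trans ?_⟩
    have h1 : (1 : ℝ) ≤ m := by linarith
    exact le_self_pow₀ h1 (by omega)
  have h1 : 2 ≤ Nat.find hex := by
    by_contra h
    have h3 := Nat.find_spec hex
    have h4 : Nat.find hex ≤ 1 := by omega
    have h5 : ((Nat.find hex : ℕ) : ℝ) ^ k ≤ 1 :=
      pow_le_one₀ (Nat.cast_nonneg _) (by exact_mod_cast h4)
    linarith
  refine ⟨Nat.find hex, h1, Nat.find_spec hex, ?_⟩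
  have h3 := Nat.find_min hex (m := Nat.find hex - 1) (by omega)
  rw [not_le] at h3
  have h4 : ((Nat.find hex : ℕ) : ℝ) ≤ 2 * ((Nat.find hex - 1 : ℕ) : ℝ) := by
    have : Nat.find hex ≤ 2 * (Nat.find hex - 1) := by omega
    exact_mod_cast this
  calc ((Nat.find hex : ℕ) : ℝ) ^ k ≤ (2 * ((Nat.find hex - 1 : ℕ) : ℝ)) ^ k :=
        pow_le_pow_left₀ (Nat.cast_nonneg _) h4 k
    _ = 2 ^ k * ((Nat.find hex - 1 : ℕ) : ℝ) ^ k := mul_pow _ _ _
    _ ≤ 2 ^ k * y := mul_le_mul_of_nonneg_left h3.le (by positivity)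

/-- the logarithm of the size -/
theorem logsize (k K₀ X A : ℕ) (hk : 2 ≤ k) (hK : 1 ≤ K₀) (hX : 2 ≤ X) (hA : 1 ≤ A)
    (h : (X : ℝ) ^ k ≤ 2 ^ k * (16 * (K₀ : ℝ) ^ 2 * A * (1 + Real.log A))) :
    K₀ * Real.log X ≤ 16 * (K₀ : ℝ) ^ 2 * (1 + Real.log A) := by
  have hXr : (0 : ℝ) < X := by
    have : 0 < X := by omega
    exact_mod_cast this
  have hAr : (1 : ℝ) ≤ A := by exact_mod_cast hA
  have hKr : (1 : ℝ) ≤ K₀ := by exact_mod_cast hK
  have hlA : 0 ≤ Real.log A := Real.log_nonneg hAr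
  have h1 := Real.log_le_log (by positivity) h
  rw [Real.log_pow, Real.log_mul (by positivity) (by positivity), Real.log_pow,
    Real.log_mul (by positivity) (by positivity), Real.log_mul (by positivity) (by positivity),
    Real.log_mul (by positivity) (by positivity), Real.log_pow] at h1
  have h2 : Real.log (1 + Real.log A) ≤ Real.log A := by
    have := Real.log_le_sub_one_of_pos (show 0 < 1 + Real.log A by positivity)
    linarith
  have h16 : Real.log 16 = 4 * Real.log 2 := by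
    rw [show (16 : ℝ) = 2 ^ 4 by norm_num, Real.log_pow]
    norm_num
  have hl2 : Real.log 2 ≤ 1 := by
    have := Real.log_two_lt_d9
    linarith
  have hl20 : 0 ≤ Real.log 2 := Real.log_nonneg (by norm_num)
  have hlK : Real.log K₀ ≤ K₀ - 1 := Real.log_le_sub_one_of_pos (by linarith)
  have hkr : (2 : ℝ) ≤ k := by exact_mod_cast hk
  have h3 : (k : ℝ) * (Real.log X - Real.log 2) ≤ 4 * Real.log 2 + 2 * Real.log K₀ +
      2 * Real.log A := by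
    rw [h16] at h1
    push_cast at h1
    nlinarith
  have h4 : Real.log 2 ≤ Real.log X := Real.log_le_log (by norm_num) (by exact_mod_cast hX)
  have h5 : 2 * (Real.log X - Real.log 2) ≤ (k : ℝ) * (Real.log X - Real.log 2) :=
    mul_le_mul_of_nonneg_right hkr (by linarith)
  have h6 : Real.log X ≤ 2 + K₀ + Real.log A := by linarith
  have h7 : Real.log X ≤ 16 * K₀ * (1 + Real.log A) := by nlinarith
  calc K₀ * Real.log X ≤ K₀ * (16 * K₀ * (1 + Real.log A)) :=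
        mul_le_mul_of_nonneg_left h7 (by positivity)
    _ = _ := by ring

end Mn1

namespace Mn1

theorem cube_aux (l : ℝ) (hl : 2 ≤ l) : (l - 1) * l ≤ l ^ 3 - 1 := by
  have h1 : 4 ≤ l ^ 2 := by nlinarith
  nlinarith

/-- large sizes -/
theorem large (L : ℝ) : ∃ X₀ : ℕ, ∀ X : ℕ, X₀ ≤ X → L ≤ Real.log X ∧ Real.log X ^ 3 ≤ X := by
  have h1 : ∀ᶠ x : ℝ in Filter.atTop, Real.log x ^ 3 ≤ x := by
    have := (Real.isLittleO_pow_log_id_atTop (n := 3)).bound (show (0 : ℝ) < 1 by norm_num)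
    filter_upwards [this, Filter.eventually_ge_atTop 1] with x hx hx1
    rw [one_mul, Real.norm_eq_abs, Real.norm_eq_abs] at hx
    simp only [id] at hx
    rw [abs_of_nonneg (by linarith : (0 : ℝ) ≤ x)] at hx
    exact (le_abs_self _).trans hx
  have h2 : ∀ᶠ x : ℝ in Filter.atTop, L ≤ Real.log x :=
    Real.tendsto_log_atTop.eventually_ge_atTop L
  have h3 := tendsto_natCast_atTop_atTop (R := ℝ) |>.eventually (h2.and h1)
  obtain ⟨X₀, hX₀⟩ := Filter.eventually_atTop.mp h3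
  exact ⟨X₀, hX₀⟩

end Mn1

open Mn1

open Classical in
/-- MN1 -/
theorem pf_MN1 (hVR1 : T_VR1) (hTR1 : T_TR1) (hSE1 : T_SE1) (hLO1 : T_LO1) (hUCL : T_UCL)
    (hSXB : T_SXB) : T_MN1 := by
  intro n F N t w₀ V ρ hn hV hρ hmu ε hε
  obtain ⟨η, hη, hU⟩ := hUCL n F N t w₀ (by omega) hmu
  obtain ⟨K, c₃, hc₃, hL⟩ := hLO1 n F N ((w₀.factorial) ^ t) V ρ η hn hV hρ hη
  obtain ⟨C, K₁, X₁, hC, hS⟩ := hSE1 n F N ((w₀.factorial) ^ t) K hn
  obtain ⟨K₃, K₄, hK₃, hB⟩ := hSXB n F N ((w₀.factorial) ^ t) K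
  obtain ⟨m0, hm0⟩ : ∃ m0 : ℕ, m0 = (w₀.factorial) ^ t := ⟨_, rfl⟩
  rw [← hm0] at hL hS hB
  obtain ⟨κ, hκ⟩ : ∃ κ : ℝ, κ = (4 / 10) ^ md (n + 2) * (c₃ / 10) ^ 2 * ε / (4 * C) := ⟨_, rfl⟩
  have hκ0 : 0 < κ := by
    rw [hκ]
    positivity
  -- the constants
  obtain ⟨δ, hδd⟩ : ∃ δ : ℝ, δ = min c₃ (min (1 / 4) (κ / 4)) := ⟨_, rfl⟩
  have hδ0 : 0 < δ := by
    rw [hδd]
    exact lt_min hc₃ (lt_min (by norm_num) (by positivity))
  have hδ1 : δ ≤ c₃ := by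
    rw [hδd]
    exact min_le_left _ _
  have hδ2 : 4 * δ ≤ κ := by
    have : δ ≤ κ / 4 := by
      rw [hδd]
      exact (min_le_right _ _).trans (min_le_right _ _)
    linarith
  have hδ4 : 4 * δ ≤ 1 := by
    have : δ ≤ 1 / 4 := by
      rw [hδd]
      exact (min_le_right _ _).trans (min_le_left _ _)
    linarith
  obtain ⟨w₁, hw₁⟩ := exists_nat_ge (1 / κ)
  obtain ⟨w, hwd⟩ : ∃ w : ℕ, w = max (max 4 w₀) w₁ := ⟨_, rfl⟩
  have hw4 : 4 ≤ w := by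
    rw [hwd]
    exact le_trans (le_max_left _ _) (le_max_left _ _)
  have hww : w₀ ≤ w := by
    rw [hwd]
    exact le_trans (le_max_right _ _) (le_max_left _ _)
  have hwk : 1 / (w : ℝ) ≤ κ := by
    have h1 : (w₁ : ℝ) ≤ w := by
      rw [hwd]
      exact_mod_cast le_max_right _ _
    have h2 : 1 / κ ≤ w := hw₁.trans h1
    have hw0 : (0 : ℝ) < w := by
      have : 0 < w := by omega
      exact_mod_cast this
    rw [div_le_iff₀ hw0]
    rw [div_le_iff₀ hκ0] at h2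
    linarith
  obtain ⟨K₀', hK₀'⟩ := exists_nat_ge (1 / κ)
  obtain ⟨K₀, hK₀d⟩ : ∃ K₀ : ℕ, K₀ = max 1 K₀' := ⟨_, rfl⟩
  have hK₀1 : 1 ≤ K₀ := by
    rw [hK₀d]
    exact le_max_left _ _
  have hK₀k : 1 / κ ≤ K₀ := by
    have h1 : (K₀' : ℝ) ≤ K₀ := by
      rw [hK₀d]
      exact_mod_cast le_max_right _ _
    exact hK₀'.trans h1
  have hK₀r : (1 : ℝ) ≤ K₀ := by exact_mod_cast hK₀1
  -- the modulus
  obtain ⟨W, hWd⟩ : ∃ W : ℕ, W = (w.factorial) ^ (2 * t + 1) := ⟨_, rfl⟩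
  have hW0 : W ≠ 0 := by
    rw [hWd]
    exact pow_ne_zero _ (Nat.factorial_ne_zero w)
  have hWg : ∀ g, 1 ≤ g → g ≤ w → g ∣ W := by
    intro g hg hgw
    rw [hWd]
    exact (Nat.dvd_factorial hg hgw).trans (dvd_pow_self _ (by omega))
  have hWp : ∀ p : ℕ, p.Prime → p ≤ w → p ^ (2 * t) ∣ W := by
    intro p hp hpw
    rw [hWd]
    exact (pow_dvd_pow_of_dvd (Nat.dvd_factorial hp.pos hpw) _).trans
      (pow_dvd_pow _ (by omega))
  obtain ⟨W₀, W₁, hW, hcop, hWa, hWb⟩ := Pool.Agent.H32.RQ.Mn.split w₀ W hW0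
  have hW₀0 : W₀ ≠ 0 := fun h => hW0 (by rw [hW, h, zero_mul])
  have hW₁0 : W₁ ≠ 0 := fun h => hW0 (by rw [hW, h, mul_zero])
  have i0 : NeZero W₀ := ⟨hW₀0⟩
  have i1 : NeZero W₁ := ⟨hW₁0⟩
  have hWc : ∀ p : ℕ, p.Prime → p ≤ w₀ → p ^ (2 * t) ∣ W₀ := by
    intro p hp hpw
    have h1 := hWp p hp (hpw.trans hww)
    rw [hW] at h1
    have h2 : Nat.Coprime (p ^ (2 * t)) W₁ :=
      Nat.Coprime.pow_left _ ((Nat.Prime.coprime_iff_not_dvd hp).mpr fun h =>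
        absurd (hWb p hp h) (not_lt.mpr hpw))
    exact h2.dvd_of_dvd_mul_right h1
  have hWpos : 1 ≤ W := Nat.one_le_iff_ne_zero.mpr hW0
  obtain ⟨X₂, hX₂⟩ := hL W δ hWpos hδ0 hδ1
  -- the large sizes
  obtain ⟨k, hk⟩ : ∃ k : ℕ, k = n - 2 := ⟨_, rfl⟩
  have hk2 : 2 ≤ k := by omega
  obtain ⟨C₅, hC₅⟩ : ∃ C₅ : ℝ, C₅ = 2 ^ k * (16 * (K₀ : ℝ) ^ 2) * (k + 1) * K₁ := ⟨_, rfl⟩
  have hC₅0 : 0 ≤ C₅ := by
    rw [hC₅]
    positivity
  obtain ⟨X₃, hX₃⟩ := large (max (max 2 (1 / κ)) (C₅ + 1))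
  obtain ⟨X₄, hX₄⟩ : ∃ X₄ : ℕ, X₄ = max (max X₁ X₂) X₃ := ⟨_, rfl⟩
  obtain ⟨A₁, hA₁⟩ := exists_nat_ge ((2 * (W : ℝ) + 2) / (2 * δ))
  refine ⟨W₁, K₃ ^ k * (2 ^ k * (16 * K₀ ^ 2)), max (max 2 A₁) (X₄ ^ k), i1, hWb, ?_⟩
  intro A hA
  have hA2 : 2 ≤ A := le_trans (le_trans (le_max_left _ _) (le_max_left _ _)) hA
  have hAA1 : A₁ ≤ A := le_trans (le_trans (le_max_right _ _) (le_max_left _ _)) hA
  have hAX : X₄ ^ k ≤ A := le_trans (le_max_right _ _) hA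
  have hA1 : 1 ≤ A := by omega
  have hAr1 : (1 : ℝ) ≤ A := by exact_mod_cast hA1
  have hAr : (0 : ℝ) < A := by linarith
  have hlA : 0 ≤ Real.log A := Real.log_nonneg hAr1
  obtain ⟨y, hy⟩ : ∃ y : ℝ, y = 16 * (K₀ : ℝ) ^ 2 * A * (1 + Real.log A) := ⟨_, rfl⟩
  have hyA : (A : ℝ) ≤ y := by
    rw [hy]
    have h1 : (1 : ℝ) ≤ 16 * (K₀ : ℝ) ^ 2 := by
      have h3 : (1 : ℝ) ≤ (K₀ : ℝ) ^ 2 := one_le_pow₀ hK₀r
      linarith
    have h2 : (A : ℝ) ≤ 16 * (K₀ : ℝ) ^ 2 * A := le_mul_of_one_le_left hAr.le h1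
    refine h2.trans (le_mul_of_one_le_right (by positivity) (by linarith))
  have hy2 : 2 ≤ y := le_trans (by exact_mod_cast hA2) hyA
  obtain ⟨X, hX2, hXl, hXu⟩ := size k y (by omega) hy2
  have hX4 : X₄ ≤ X := by
    by_contra h
    have h1 : X ^ k < X₄ ^ k := Nat.pow_lt_pow_left (by omega) (by omega)
    have h2 : ((X ^ k : ℕ) : ℝ) < (A : ℝ) := Nat.cast_lt.mpr (lt_of_lt_of_le h1 hAX)
    push_cast at h2
    linarith
  have hXX1 : X₁ ≤ X := le_trans (by rw [hX₄]; exact le_trans (le_max_left _ _) (le_max_left _ _)) hX4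
  have hXX2 : X₂ ≤ X := le_trans (by rw [hX₄]; exact le_trans (le_max_right _ _) (le_max_left _ _)) hX4
  have hXX3 : X₃ ≤ X := le_trans (by rw [hX₄]; exact le_max_right _ _) hX4
  obtain ⟨hlL, hl3⟩ := hX₃ X hXX3
  have hX1 : 1 ≤ X := by omega
  have hXr1 : (1 : ℝ) ≤ X := by exact_mod_cast hX1
  have hXr : (0 : ℝ) < X := by linarith
  obtain ⟨l, hl⟩ : ∃ l : ℝ, l = Real.log X := ⟨_, rfl⟩
  rw [← hl] at hlL hl3
  have hl2 : 2 ≤ l := le_trans (le_trans (le_max_left _ _) (le_max_left _ _)) hlL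
  have hlκ : 1 / κ ≤ l := le_trans (le_trans (le_max_right _ _) (le_max_left _ _)) hlL
  have hlC : C₅ + 1 ≤ l := le_trans (le_max_right _ _) hlL
  have hl0 : 0 < l := by linarith
  have hlk : 1 / l ≤ κ := by
    rw [div_le_iff₀ hl0]
    rw [div_le_iff₀ hκ0] at hlκ
    linarith
  -- D
  obtain ⟨D, hD⟩ : ∃ D : ℕ, D = ⌊l ^ 3⌋₊ := ⟨_, rfl⟩
  have hDu : (D : ℝ) ≤ l ^ 3 := by
    rw [hD]
    exact Nat.floor_le (by positivity)
  have hDl : l ^ 3 - 1 ≤ D := by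
    have := Nat.lt_floor_add_one (l ^ 3)
    rw [← hD] at this
    linarith
  -- X ^ k and A
  have hAk : 1 + Real.log A ≤ (k + 1) * l := by
    have h1 : Real.log A ≤ k * l := by
      rw [hl, ← Real.log_pow]
      exact Real.log_le_log hAr (hyA.trans hXl)
    linarith
  have hXk : (X : ℝ) ^ 2 ≤ (X : ℝ) ^ k := pow_le_pow_right₀ hXr1 hk2
  have hKX : (K₁ : ℝ) * (X : ℝ) ^ 2 ≤ C₅ * l * A := by
    have h1 : (X : ℝ) ^ 2 ≤ 2 ^ k * (16 * (K₀ : ℝ) ^ 2 * A * ((k + 1) * l)) := by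
      refine hXk.trans (hXu.trans ?_)
      rw [hy]
      exact mul_le_mul_of_nonneg_left (mul_le_mul_of_nonneg_left hAk (by positivity))
        (by positivity)
    calc (K₁ : ℝ) * (X : ℝ) ^ 2 ≤ K₁ * (2 ^ k * (16 * (K₀ : ℝ) ^ 2 * A * ((k + 1) * l))) :=
          mul_le_mul_of_nonneg_left h1 (Nat.cast_nonneg _)
      _ = C₅ * l * A := by
        rw [hC₅]
        ring
  have hC5l : C₅ * l ≤ l ^ 3 - 1 := by
    have h1 : C₅ * l ≤ (l - 1) * l := mul_le_mul_of_nonneg_right (by linarith) hl0.le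
    have h2 : (l - 1) * l ≤ l ^ 3 - 1 := cube_aux l hl2
    exact h1.trans h2
  have hKD : K₁ * X ^ 2 ≤ D * A := by
    have h1 : ((K₁ * X ^ 2 : ℕ) : ℝ) ≤ ((D * A : ℕ) : ℝ) := by
      push_cast
      refine hKX.trans (mul_le_mul_of_nonneg_right (hC5l.trans hDl) hAr.le)
    exact_mod_cast h1
  have hKA : K₁ * X ≤ A := by
    have h1 : (K₁ : ℝ) * (X : ℝ) ^ 2 ≤ X * A := by
      refine hKX.trans (mul_le_mul_of_nonneg_right ?_ hAr.le)
      linarith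
    have h2 : (K₁ : ℝ) * X ≤ A := by
      have h3 : (X : ℝ) * (K₁ * X) ≤ X * A := by
        calc (X : ℝ) * (K₁ * X) = K₁ * (X : ℝ) ^ 2 := by ring
          _ ≤ _ := h1
      exact le_of_mul_le_mul_left h3 hXr
    exact_mod_cast h2
  -- mu
  obtain ⟨μ, hμ⟩ : ∃ μ : ℝ, μ = (X : ℝ) ^ (n - 2) / (A * l) := ⟨_, rfl⟩
  have hμ1 : (K₀ : ℝ) ≤ μ := by
    rw [hμ, le_div_iff₀ (by positivity), ← hk]
    have h1 := logsize k K₀ X A hk2 hK₀1 hX2 hA1 (by rw [← hy]; exact hXu)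
    rw [← hl] at h1
    calc (K₀ : ℝ) * (A * l) = A * (K₀ * l) := by ring
      _ ≤ A * (16 * (K₀ : ℝ) ^ 2 * (1 + Real.log A)) := mul_le_mul_of_nonneg_left h1 hAr.le
      _ = y := by
        rw [hy]
        ring
      _ ≤ _ := hXl
  have hμ0 : 0 < μ := by linarith
  have hμk : 1 ≤ κ * μ := by
    have h1 : 1 / κ ≤ μ := hK₀k.trans hμ1
    rw [div_le_iff₀ hκ0] at h1
    linarith
  -- T
  obtain ⟨x, hx⟩ : ∃ x : ℝ, x = 4 * δ * A * (X : ℝ) ^ 2 := ⟨_, rfl⟩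
  have hx1 : 2 * (W : ℝ) + 2 ≤ x / 2 := by
    rw [div_le_iff₀ (by positivity)] at hA₁
    have h1 : (A₁ : ℝ) ≤ A := by exact_mod_cast hAA1
    have h2 : (1 : ℝ) ≤ (X : ℝ) ^ 2 := one_le_pow₀ hXr1
    have h3 : 2 * (W : ℝ) + 2 ≤ A * (2 * δ) :=
      hA₁.trans (mul_le_mul_of_nonneg_right h1 (by positivity))
    have h4 : A * (2 * δ) ≤ A * (2 * δ) * (X : ℝ) ^ 2 := le_mul_of_one_le_right (by positivity) h2
    rw [hx]
    linarith
  have hWr : (1 : ℝ) ≤ W := by exact_mod_cast hWpos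
  have hx0 : 0 ≤ x := by linarith
  obtain ⟨T, hT⟩ : ∃ T : ℕ, T = ⌊x⌋₊ := ⟨_, rfl⟩
  have hTu : (T : ℝ) ≤ x := by
    rw [hT]
    exact Nat.floor_le hx0
  have hTl : x / 2 ≤ T := by
    have h1 := Nat.lt_floor_add_one x
    rw [← hT] at h1
    linarith
  have hT0 : (0 : ℝ) < T := by linarith
  have hTW : 2 * W ≤ T := by
    have h1 : (2 : ℝ) * W ≤ T := by linarith
    exact_mod_cast h1
  -- J, Q
  obtain ⟨M, hM⟩ : ∃ M : ℕ, M = K₁ * X ^ 4 + md (n + 2) * (K₃ * X) ^ 2 + 2 := ⟨_, rfl⟩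
  obtain ⟨J, hJ⟩ : ∃ J : ℕ, J = T * W * M := ⟨_, rfl⟩
  have hTpos : 1 ≤ T := by exact_mod_cast (Nat.cast_pos.mp hT0)
  have hJN : M ≤ J := by
    rw [hJ]
    exact Nat.le_mul_of_pos_left _ (Nat.mul_pos hTpos hWpos)
  have hJ1 : 1 ≤ J := le_trans (by rw [hM]; omega) hJN
  have hJ16 : K₁ * X ^ 4 ≤ J := le_trans (by rw [hM]; omega) hJN
  have hJ2 : 2 ≤ J := le_trans (by rw [hM]; omega) hJN
  obtain ⟨Q, hQ⟩ : ∃ Q : ℕ, Q = 2 * A * J := ⟨_, rfl⟩
  have hQ0 : Q ≠ 0 := by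
    rw [hQ]
    positivity
  have iQ : NeZero Q := ⟨hQ0⟩
  have hWQ : W ∣ Q := by
    rw [hQ, hJ]
    exact Dvd.intro (2 * A * T * M) (by ring)
  have hTQ : T ∣ Q := by
    rw [hQ, hJ]
    exact Dvd.intro (2 * A * W * M) (by ring)
  have h2JQ : 2 * J ≤ Q := by
    rw [hQ]
    exact Nat.mul_le_mul_right _ (by omega)
  have hQA : 2 * A < Q := by
    rw [hQ]
    calc 2 * A = 2 * A * 1 := (mul_one _).symm
      _ < 2 * A * J := Nat.mul_lt_mul_of_pos_left (by omega) (by omega)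
  have hQB : 2 * md (n + 2) * A * (K₃ * X) ^ 2 < Q := by
    rw [hQ]
    have h1 : md (n + 2) * (K₃ * X) ^ 2 < J := lt_of_lt_of_le (by rw [hM]; omega) hJN
    calc 2 * md (n + 2) * A * (K₃ * X) ^ 2 = 2 * A * (md (n + 2) * (K₃ * X) ^ 2) := by ring
      _ < 2 * A * J := Nat.mul_lt_mul_of_pos_left h1 (by omega)
  have hQJ : (Q : ℝ) / J = 2 * A := by
    rw [hQ]
    push_cast
    have : (J : ℝ) ≠ 0 := by
      have : J ≠ 0 := by omega
      exact_mod_cast this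
    field_simp
  -- the exceptional set
  obtain ⟨E, hE⟩ : ∃ E : Finset (Mon (n + 2) → ℤ), E = (b1 (n + 2) A).filter fun f =>
    RBN N ρ V A f ∧ (∀ p : ℕ, p.Prime → p ≤ w₀ → RP N t p f) ∧
      W₁ ^ (n - 1) ≤ 2 * aN N W₁ (cf (ZMod W₁) f) ∧
      ¬ SZ1 F (K₃ ^ k * (2 ^ k * (16 * K₀ ^ 2))) A f := ⟨_, rfl⟩
  rw [← hE]
  obtain ⟨M₀, hM₀⟩ : ∃ M₀ : ℝ, M₀ = c₃ * δ * (X : ℝ) ^ n / (W * l) := ⟨_, rfl⟩
  have hM₀0 : 0 ≤ M₀ := by
    rw [hM₀]
    positivity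
  have hSB : SX N m0 K D X ⊆ vb (n + 2) (K₃ * X) := by
    intro z hz
    have h1 := (hB D X z hz).bd
    rw [vb, Fintype.mem_piFinset]
    intro i
    rw [Finset.mem_Icc]
    exact abs_le.mp (h1 i)
  have h1 := hTR1 (n + 2) A (K₃ * X) J Q W T (SX N m0 K D X) E M₀ hA1 hJ1 hQ hWpos hWQ hTQ hTW hQA
    hQB hSB (by rw [hE]; exact Finset.filter_subset _ _) hM₀0 (by
      intro f hf
      rw [hE, Finset.mem_filter] at hf
      obtain ⟨hfb, hf1, hf2, hf3, hf4⟩ := hf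
      constructor
      · intro z hzS hno
        apply hf4
        have hz := hB D X z hzS
        have hzF : qf F z = 0 := by
          rw [SX, Finset.mem_filter, Finset.mem_image] at hzS
          obtain ⟨⟨e, he, rfl⟩, -⟩ := hzS
          rw [EX, Finset.mem_filter] at he
          have h5 := N.hF ℤ (e 0) (e 1) (vt e)
          have h6 : pt (e 0) (e 1) (vt e) = e := by
            funext i
            refine Fin.cases rfl (fun j => ?_) i
            refine Fin.cases rfl (fun j' => rfl) j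
          have h7 : ∀ (s : ℕ) (g : Mon s → ℤ), cf ℤ g = g := fun s g => by
            funext p
            simp [cf]
          rw [h6, h7, h7] at h5
          rw [h5]
          have h8 := he.2.2.1
          simpa using h8
        refine ⟨z, ?_, hzF, hno, ?_⟩
        · intro h0
          obtain ⟨a, ha⟩ := hz.prm
          rw [h0] at ha
          simp at ha
        · intro j
          have h9 : |(z j : ℝ)| ≤ K₃ * X := by
            have := hz.bd j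
            have h10 : ((|z j| : ℤ) : ℝ) ≤ ((K₃ * X : ℕ) : ℝ) := by exact_mod_cast this
            push_cast at h10
            exact h10
          have h11 : n + 2 - 4 = k := by omega
          rw [h11]
          calc |(z j : ℝ)| ^ k ≤ ((K₃ : ℝ) * X) ^ k := pow_le_pow_left₀ (abs_nonneg _) h9 _
            _ = (K₃ : ℝ) ^ k * (X : ℝ) ^ k := mul_pow _ _ _
            _ ≤ (K₃ : ℝ) ^ k * (2 ^ k * y) := mul_le_mul_of_nonneg_left hXu (by positivity)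
            _ = _ := by
              rw [hy]
              push_cast
              ring
      · have h2 := hX₂ X D A f hXX2 (by rw [← hl]; exact hDu) hA1 hfb hf1 (by
          have h3 := hU W₀ W₁ f hWa hWc hWb hf2 hf3
          rw [← hW, ← hm0] at h3
          exact h3)
        rw [← hl] at h2
        rw [hM₀]
        refine h2.trans (Nat.cast_le.mpr (Finset.card_le_card ?_))
        intro z hzz
        rw [Finset.mem_filter] at hzz ⊢
        refine ⟨hzz.1, hzz.2.1, ?_⟩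
        have h3 := hzz.2.2
        have h4 : 2 * |((qf f z : ℤ) : ℝ)| ≤ T := by
          refine le_trans ?_ hTl
          rw [hx]
          linarith
        exact_mod_cast h4)
  have h2 := hVR1 (n + 2) Q J W T (SX N m0 K D X) hJ1 h2JQ hWpos hWQ hTQ hTW
  have h3 := hS X D A J Q W T w (4 * δ) hXX1 hKA hKD hJ16 hQ hWpos hWQ hTQ hTW (by omega)
    hWg (by positivity) hδ4 (by
      refine hTu.trans (le_of_eq ?_)
      rw [hx])
  rw [hQJ] at h2
  rw [← hl, ← hμ] at h3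
  have h4 : (E.card : ℝ) * ((4 / 10) ^ md (n + 2) * ((W : ℝ) / T * (4 / 10) * M₀) ^ 2) ≤
      (2 * (A : ℝ)) ^ md (n + 2) * (C * (μ ^ 2 * (1 / w + 4 * δ + 1 / l) + μ)) :=
    (h1.trans h2).trans (mul_le_mul_of_nonneg_left h3 (by positivity))
  have h5 : c₃ / 4 * μ ≤ (W : ℝ) / T * M₀ := by
    have e1 : (W : ℝ) / T * M₀ = c₃ * δ * (X : ℝ) ^ n / (T * l) := by
      rw [hM₀]
      have : (W : ℝ) ≠ 0 := by positivity
      field_simp
    rw [e1, le_div_iff₀ (by positivity)]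
    have e2 : c₃ / 4 * μ * (x * l) = c₃ * δ * (X : ℝ) ^ n := by
      obtain ⟨n', rfl⟩ : ∃ n', n = n' + 2 := ⟨n - 2, by omega⟩
      rw [Nat.add_sub_cancel] at hμ
      rw [hμ, hx]
      have : (A : ℝ) ≠ 0 := hAr.ne'
      field_simp
      ring
    rw [← e2]
    exact mul_le_mul_of_nonneg_left (mul_le_mul_of_nonneg_right hTu hl0.le) (by positivity)
  have h6 : (c₃ / 10 * μ) ^ 2 ≤ ((W : ℝ) / T * (4 / 10) * M₀) ^ 2 := by
    refine pow_le_pow_left₀ (by positivity) ?_ 2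
    calc c₃ / 10 * μ = (4 / 10) * (c₃ / 4 * μ) := by ring
      _ ≤ (4 / 10) * ((W : ℝ) / T * M₀) := mul_le_mul_of_nonneg_left h5 (by norm_num)
      _ = (W : ℝ) / T * (4 / 10) * M₀ := by ring
  have h7 : (E.card : ℝ) * ((4 / 10) ^ md (n + 2) * (c₃ / 10 * μ) ^ 2) ≤
      (2 * (A : ℝ)) ^ md (n + 2) * (C * (μ ^ 2 * (1 / w + 4 * δ + 1 / l) + μ)) := by
    refine le_trans (mul_le_mul_of_nonneg_left (mul_le_mul_of_nonneg_left h6 (by positivity))
      (Nat.cast_nonneg _)) h4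
  have h8 : C * (μ ^ 2 * (1 / w + 4 * δ + 1 / l) + μ) ≤ C * (4 * κ) * μ ^ 2 := by
    have h9 : μ ≤ κ * μ ^ 2 := by
      calc μ = 1 * μ := (one_mul μ).symm
        _ ≤ κ * μ * μ := mul_le_mul_of_nonneg_right hμk hμ0.le
        _ = κ * μ ^ 2 := by ring
    have h10 : μ ^ 2 * (1 / w + 4 * δ + 1 / l) ≤ μ ^ 2 * (κ + κ + κ) :=
      mul_le_mul_of_nonneg_left (add_le_add (add_le_add hwk hδ2) hlk) (by positivity)
    calc C * (μ ^ 2 * (1 / w + 4 * δ + 1 / l) + μ) ≤ C * (μ ^ 2 * (κ + κ + κ) + κ * μ ^ 2) :=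
          mul_le_mul_of_nonneg_left (add_le_add h10 h9) hC.le
      _ = C * (4 * κ) * μ ^ 2 := by ring
  have h11 : C * (4 * κ) = (4 / 10) ^ md (n + 2) * (c₃ / 10) ^ 2 * ε := by
    rw [hκ]
    field_simp
  rw [h11] at h8
  have h12 : (E.card : ℝ) * ((4 / 10) ^ md (n + 2) * (c₃ / 10 * μ) ^ 2) ≤
      ε * (2 * (A : ℝ)) ^ md (n + 2) * ((4 / 10) ^ md (n + 2) * (c₃ / 10 * μ) ^ 2) := by
    refine h7.trans ((mul_le_mul_of_nonneg_left h8 (by positivity)).trans (le_of_eq ?_))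
    ring
  have h13 : (E.card : ℝ) ≤ ε * (2 * (A : ℝ)) ^ md (n + 2) :=
    le_of_mul_le_mul_right h12 (by positivity)
  refine h13.trans (mul_le_mul_of_nonneg_left ?_ hε.le)
  exact pow_le_pow_left₀ (by positivity) (by linarith) _

end Pool.Agent.H34.HFQ
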