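import Pool.Agent.H34.FQ.Targets

/-!
Row NFE of the board hfq_modules (`MP_63b6b1_nt`): a normal form for every primitive zero.
-/

set_option autoImplicit false

open Finset Pool.Agent.H32.RQ Pool.Agent.H34.FQ

namespace Pool.Agent.H34.HFQ

namespace Nfe

section bil

variable {R : Type} [CommRing R] {s : ℕ}

theorem bl_eq (f : Mon s → R) (z x : Fin s → R) :
    bl f z x = ∑ p : Mon s, f p * (z p.1.1 * x p.1.2 + z p.1.2 * x p.1.1) := by
  unfold bl dq
  simp only [Finset.mul_sum]
  rw [Finset.sum_comm]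
  refine Finset.sum_congr rfl fun p _ => ?_
  have h1 : ∀ j, z j * (f p * ((if p.1.1 = j then x p.1.2 else 0) +
      (if p.1.2 = j then x p.1.1 else 0))) =
      (if p.1.1 = j then z j * f p * x p.1.2 else 0) +
      (if p.1.2 = j then z j * f p * x p.1.1 else 0) := by
    intro j
    split_ifs <;> ring
  rw [Finset.sum_congr rfl fun j _ => h1 j, Finset.sum_add_distrib, Finset.sum_ite_eq,
    Finset.sum_ite_eq, if_pos (Finset.mem_univ _), if_pos (Finset.mem_univ _)]
  ring

theorem bl_comm (f : Mon s → R) (z x : Fin s → R) : bl f z x = bl f x z := by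
  rw [bl_eq, bl_eq]
  exact Finset.sum_congr rfl fun p _ => by ring

theorem bl_sum (f : Mon s → R) (z x : Fin s → R) : bl f z x = ∑ i, x i * dq f z i := by
  rw [bl_comm]
  rfl

theorem qf_add (f : Mon s → R) (x z : Fin s → R) (t : R) :
    qf f (fun i => x i + t * z i) = qf f x + t * bl f z x + t ^ 2 * qf f z := by
  rw [bl_eq]
  unfold qf
  rw [Finset.mul_sum, Finset.mul_sum, ← Finset.sum_add_distrib, ← Finset.sum_add_distrib]
  exact Finset.sum_congr rfl fun p _ => by ring

theorem bl_self (f : Mon s → R) (x : Fin s → R) : bl f x x = 2 * qf f x :=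
  Pool.Agent.H13.RQ.Hs_euler f x

theorem bl_add (f : Mon s → R) (z x y : Fin s → R) :
    bl f z (fun i => x i + y i) = bl f z x + bl f z y := by
  rw [bl_eq, bl_eq, bl_eq, ← Finset.sum_add_distrib]
  exact Finset.sum_congr rfl fun p _ => by ring

/-- restriction to coordinates -/
theorem qf_restrict {a b : ℕ} (ι : Fin a → Fin b) (hι : StrictMono ι) (g : Mon b → R)
    (x : Fin b → R) (hx : ∀ j, (∀ i, ι i ≠ j) → x j = 0) :
    qf g x = qf (fun p : Mon a => g ⟨(ι p.1.1, ι p.1.2), hι.monotone p.2⟩) (fun i => x (ι i)) := by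
  unfold qf
  symm
  refine Finset.sum_of_injOn (fun p : Mon a => (⟨(ι p.1.1, ι p.1.2), hι.monotone p.2⟩ : Mon b))
    ?_ (fun p _ => by simp) ?_ (fun p _ => rfl)
  · intro p _ q _ h
    have h1 := congrArg (fun m : Mon b => m.1) h
    simp only [Prod.mk.injEq] at h1
    exact Subtype.ext (Prod.ext (hι.injective h1.1) (hι.injective h1.2))
  · intro q _ hq
    by_cases h1 : ∃ i, ι i = q.1.1
    · by_cases h2 : ∃ i, ι i = q.1.2
      · exfalso
        obtain ⟨i, hi⟩ := h1
        obtain ⟨j, hj⟩ := h2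
        apply hq
        refine ⟨⟨(i, j), ?_⟩, by simp, ?_⟩
        · have := q.2
          rw [← hi, ← hj] at this
          exact hι.le_iff_le.mp this
        · exact Subtype.ext (Prod.ext hi hj)
      · push Not at h2
        rw [hx _ h2, mul_zero, mul_zero]
    · push Not at h1
      rw [hx _ h1, zero_mul, mul_zero]

end bil

/-- the unimodular basis -/
theorem basis (n : ℕ) (φ ψ : (Fin (n + 2) → ℤ) →ₗ[ℤ] ℤ) (z b : Fin (n + 2) → ℤ)
    (h1 : φ b = 1) (h2 : ψ b = 0) (h3 : φ z = 0) (h4 : ψ z = 1) :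
    ∃ T Ti : Matrix (Fin (n + 2)) (Fin (n + 2)) ℤ, T * Ti = 1 ∧ Ti * T = 1 ∧
      (∀ i, T i 1 = z i) ∧ ∀ i, Ti 0 i = φ (Pi.single i 1) := by
  classical
  let K : Submodule ℤ (Fin (n + 2) → ℤ) := LinearMap.ker φ ⊓ LinearMap.ker ψ
  have hmem : ∀ x : Fin (n + 2) → ℤ, x - φ x • b - ψ x • z ∈ K := by
    intro x
    refine ⟨?_, ?_⟩
    · rw [SetLike.mem_coe, LinearMap.mem_ker, map_sub, map_sub, map_smul, map_smul, h1, h3]
      simp
    · rw [SetLike.mem_coe, LinearMap.mem_ker, map_sub, map_sub, map_smul, map_smul, h2, h4]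
      simp
  let π : (Fin (n + 2) → ℤ) →ₗ[ℤ] K :=
    { toFun := fun x => ⟨x - φ x • b - ψ x • z, hmem x⟩
      map_add' := by
        intro x y
        apply Subtype.ext
        simp only [map_add, add_smul, Submodule.coe_add]
        abel
      map_smul' := by
        intro c x
        apply Subtype.ext
        simp only [map_smul, smul_sub, RingHom.id_apply, Submodule.coe_smul, smul_assoc] }
  have hπ : ∀ x, ((π x : K) : Fin (n + 2) → ℤ) = x - φ x • b - ψ x • z := fun x => rfl
  let e : (Fin (n + 2) → ℤ) ≃ₗ[ℤ] (ℤ × ℤ) × K :=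
    { toFun := fun x => ((φ x, ψ x), π x)
      map_add' := by
        intro x y
        simp
      map_smul' := fun c x =>
        Prod.ext (Prod.ext (map_smul φ c x) (map_smul ψ c x)) (map_smul π c x)
      invFun := fun q => q.1.1 • b + q.1.2 • z + (q.2 : Fin (n + 2) → ℤ)
      left_inv := by
        intro x
        simp only [hπ]
        abel
      right_inv := by
        rintro ⟨⟨c, y⟩, k⟩
        have hk1 : φ (k : Fin (n + 2) → ℤ) = 0 := LinearMap.mem_ker.mp k.2.1
        have hk2 : ψ (k : Fin (n + 2) → ℤ) = 0 := LinearMap.mem_ker.mp k.2.2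
        have e1 : φ (c • b + y • z + (k : Fin (n + 2) → ℤ)) = c := by
          rw [map_add, map_add, map_smul, map_smul, h1, h3, hk1]
          simp
        have e2 : ψ (c • b + y • z + (k : Fin (n + 2) → ℤ)) = y := by
          rw [map_add, map_add, map_smul, map_smul, h2, h4, hk2]
          simp
        refine Prod.ext (Prod.ext e1 e2) (Subtype.ext ?_)
        rw [hπ, e1, e2]
        funext i
        simp only [Pi.sub_apply, Pi.add_apply]
        ring }
  have hfr : Module.finrank ℤ K = n := by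
    have h := e.finrank_eq
    rw [Module.finrank_prod, Module.finrank_prod, Module.finrank_self, Module.finrank_fin_fun] at h
    omega
  let B : Module.Basis (Fin n) ℤ K := Module.finBasisOfFinrankEq ℤ K hfr
  let T : Matrix (Fin (n + 2)) (Fin (n + 2)) ℤ := fun i =>
    Fin.cons (b i) (Fin.cons (z i) fun j => (B j : Fin (n + 2) → ℤ) i)
  let Ti : Matrix (Fin (n + 2)) (Fin (n + 2)) ℤ :=
    Fin.cons (fun i => φ (Pi.single i 1)) (Fin.cons (fun i => ψ (Pi.single i 1))
      fun j i => B.repr (π (Pi.single i 1)) j)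
  have hTT : T * Ti = 1 := by
    ext i i'
    rw [Matrix.mul_apply, Fin.sum_univ_succ, Fin.sum_univ_succ]
    change b i * φ (Pi.single i' 1) + (z i * ψ (Pi.single i' 1) +
      ∑ j, (B j : Fin (n + 2) → ℤ) i * B.repr (π (Pi.single i' 1)) j) = _
    have h5 : ∑ j, (B j : Fin (n + 2) → ℤ) i * B.repr (π (Pi.single i' 1)) j =
        ((π (Pi.single i' 1) : K) : Fin (n + 2) → ℤ) i := by
      conv_rhs => rw [← B.sum_repr (π (Pi.single i' 1))]
      rw [Submodule.coe_sum, Finset.sum_apply]
      refine Finset.sum_congr rfl fun j _ => ?_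
      rw [Submodule.coe_smul, Pi.smul_apply, smul_eq_mul, mul_comm]
    rw [h5, hπ]
    simp only [Pi.sub_apply, Pi.smul_apply, smul_eq_mul]
    rw [Matrix.one_apply, Pi.single_apply]
    ring
  exact ⟨T, Ti, hTT, mul_eq_one_comm.mp hTT, fun i => rfl, fun i => rfl⟩

section main

variable {n : ℕ}

theorem mv_map {R : Type} [CommRing R] {s : ℕ} (T : Matrix (Fin s) (Fin s) ℤ) (x : Fin s → ℤ) :
    (fun i => ((mv T x i : ℤ) : R)) = mv T (fun i => (x i : R)) := by
  funext i
  unfold mv
  push_cast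
  rfl

theorem mv_add {R : Type} [CommRing R] {s : ℕ} (T : Matrix (Fin s) (Fin s) ℤ) (x y : Fin s → R)
    (t : R) (i : Fin s) : mv T (fun j => x j + t * y j) i = mv T x i + t * mv T y i := by
  unfold mv
  rw [Finset.mul_sum, ← Finset.sum_add_distrib]
  exact Finset.sum_congr rfl fun j _ => by ring

theorem mv_mv {R : Type} [CommRing R] {s : ℕ} (T Ti : Matrix (Fin s) (Fin s) ℤ)
    (h : T * Ti = 1) (x : Fin s → R) : mv T (mv Ti x) = x := by
  funext i
  unfold mv
  have h1 : ∀ k, ∑ j, (T i j : R) * (Ti j k : R) = if i = k then 1 else 0 := by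
    intro k
    have h2 := congrFun (congrFun h i) k
    rw [Matrix.mul_apply, Matrix.one_apply] at h2
    have h3 := congrArg (fun a : ℤ => (a : R)) h2
    push_cast at h3
    exact h3
  calc ∑ j, (T i j : R) * ∑ k, (Ti j k : R) * x k
      = ∑ k, (∑ j, (T i j : R) * (Ti j k : R)) * x k := by
        simp only [Finset.mul_sum, Finset.sum_mul]
        rw [Finset.sum_comm]
        exact Finset.sum_congr rfl fun k _ => Finset.sum_congr rfl fun j _ => by ring
    _ = x i := by
        rw [Finset.sum_congr rfl fun k _ => by rw [h1 k]]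
        simp

theorem qf_cast {R : Type} [CommRing R] {s : ℕ} (f : Mon s → ℤ) (x : Fin s → ℤ) :
    ((qf f x : ℤ) : R) = qf (cf R f) (fun i => (x i : R)) := by
  unfold qf cf
  push_cast
  rfl

theorem bl_cast {R : Type} [CommRing R] {s : ℕ} (f : Mon s → ℤ) (x y : Fin s → ℤ) :
    ((bl f x y : ℤ) : R) = bl (cf R f) (fun i => (x i : R)) (fun i => (y i : R)) := by
  rw [bl_eq, bl_eq]
  unfold cf
  push_cast
  rfl

/-- the pulled back form over a ring -/
theorem pb_cast {R : Type} [CommRing R] {s : ℕ} (T : Matrix (Fin s) (Fin s) ℤ) (f : Mon s → ℤ) :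
    cf R (pb T f) = pb (T.map (fun a : ℤ => (a : R))) (cf R f) := by
  funext p
  unfold pb
  change ((if p.1.1 = p.1.2 then qf f (fun i => T i p.1.1)
    else bl f (fun i => T i p.1.1) (fun i => T i p.1.2) : ℤ) : R) = _
  split_ifs with h
  · rw [qf_cast]
    rfl
  · rw [bl_cast]
    rfl

theorem qf_pb (hPBK : T_PBK) {R : Type} [CommRing R] {s : ℕ} (T : Matrix (Fin s) (Fin s) ℤ)
    (f : Mon s → ℤ) (x : Fin s → R) : qf (cf R (pb T f)) x = qf (cf R f) (mv T x) := by
  rw [pb_cast, (hPBK R s (T.map (fun a : ℤ => (a : R))) (cf R f) x).1]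
  rfl

end main

end Nfe

open Nfe

/-- NFE -/
theorem pf_NFE (hPBK : T_PBK) : T_NFE := by
  classical
  intro n F z hdet hz hFz
  -- the linear forms
  let φ' : (Fin (n + 2) → ℤ) →ₗ[ℤ] ℤ :=
    { toFun := fun x => bl F z x
      map_add' := fun x y => bl_add F z x y
      map_smul' := by
        intro c x
        change bl F z (fun i => c * x i) = c * bl F z x
        rw [bl_eq, bl_eq, Finset.mul_sum]
        exact Finset.sum_congr rfl fun p _ => by ring }
  have hφ' : ∀ x, φ' x = bl F z x := fun x => rfl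
  obtain ⟨a, ha⟩ := hz
  have hzne : z ≠ 0 := by
    intro h
    rw [h] at ha
    simp at ha
  let ψ : (Fin (n + 2) → ℤ) →ₗ[ℤ] ℤ :=
    { toFun := fun x => ∑ i, a i * x i
      map_add' := by
        intro x y
        simp only [Pi.add_apply, mul_add, Finset.sum_add_distrib]
      map_smul' := by
        intro c x
        simp only [Pi.smul_apply, smul_eq_mul, RingHom.id_apply, Finset.mul_sum]
        exact Finset.sum_congr rfl fun i _ => by ring }
  have hψz : ψ z = 1 := ha
  obtain ⟨mu, hmu⟩ : ∃ mu : ℤ, LinearMap.range φ' = Ideal.span {mu} :=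
    (IsPrincipalIdealRing.principal (LinearMap.range φ' : Ideal ℤ)).1
  have hmem : ∀ x, mu ∣ φ' x := by
    intro x
    have : φ' x ∈ (Ideal.span {mu} : Ideal ℤ) := by
      rw [← hmu]
      exact ⟨x, rfl⟩
    exact Ideal.mem_span_singleton.mp this
  have hmu0 : mu ≠ 0 := by
    intro h0
    have h1 : ∀ x, bl F z x = 0 := by
      intro x
      have := hmem x
      rw [h0, zero_dvd_iff] at this
      exact this
    apply hdet
    rw [← Matrix.exists_mulVec_eq_zero_iff]
    refine ⟨z, hzne, ?_⟩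
    funext i
    have h2 : dq F z i = 0 := by
      have h3 := h1 (Pi.single i 1)
      rw [bl_sum] at h3
      simpa [Pi.single_apply] using h3
    rw [← Pool.Agent.H13.RQ.Hs_mulVec] at h2
    exact h2
  obtain ⟨b', hb'⟩ : ∃ b', φ' b' = mu := by
    have : mu ∈ (LinearMap.range φ' : Ideal ℤ) := by
      rw [hmu]
      exact Ideal.mem_span_singleton_self mu
    exact this
  let φ : (Fin (n + 2) → ℤ) →ₗ[ℤ] ℤ :=
    { toFun := fun x => φ' x / mu
      map_add' := by
        intro x y
        obtain ⟨c, hc⟩ := hmem x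
        obtain ⟨d, hd⟩ := hmem y
        rw [map_add, hc, hd, ← mul_add, Int.mul_ediv_cancel_left _ hmu0,
          Int.mul_ediv_cancel_left _ hmu0, Int.mul_ediv_cancel_left _ hmu0]
      map_smul' := by
        intro c x
        obtain ⟨d, hd⟩ := hmem x
        rw [map_smul, hd, smul_eq_mul, RingHom.id_apply, smul_eq_mul,
          show c * (mu * d) = mu * (c * d) by ring, Int.mul_ediv_cancel_left _ hmu0,
          Int.mul_ediv_cancel_left _ hmu0] }
  have hφ : ∀ x, mu * φ x = bl F z x := by
    intro x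
    change mu * (φ' x / mu) = φ' x
    exact Int.mul_ediv_cancel' (hmem x)
  have hφb' : φ b' = 1 := by
    have h1 := hφ b'
    rw [← hφ', hb'] at h1
    exact mul_left_cancel₀ hmu0 (by rw [h1, mul_one])
  have hφz : φ z = 0 := by
    have h1 := hφ z
    rw [bl_self, hFz, mul_zero] at h1
    rcases mul_eq_zero.mp h1 with h2 | h2
    · exact absurd h2 hmu0
    · exact h2
  obtain ⟨T, Ti, hT1, hT2, hTz, hTi⟩ := basis n φ ψ z (b' - ψ b' • z)
    (by rw [map_sub, map_smul, hφb', hφz]; simp)
    (by rw [map_sub, map_smul, hψz]; simp) hφz hψz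
  -- the bilinear form against z, over a ring
  have hbl : ∀ (R : Type) [CommRing R] (x : Fin (n + 2) → R),
      bl (cf R F) (fun i => (z i : R)) x = (mu : R) * mv Ti x 0 := by
    intro R _ x
    rw [bl_sum]
    unfold mv
    rw [Finset.mul_sum]
    refine Finset.sum_congr rfl fun i _ => ?_
    have h1 : dq F z i = mu * Ti 0 i := by
      rw [hTi i, hφ, bl_sum]
      simp [Pi.single_apply]
    have h2 : dq (cf R F) (fun i => (z i : R)) i = ((dq F z i : ℤ) : R) := by
      unfold dq cf
      push_cast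
      refine Finset.sum_congr rfl fun p _ => ?_
      congr 2
    rw [h2, h1]
    push_cast
    ring
  -- the forms q and r
  have hm1 : StrictMono (fun i : Fin (n + 1) => (Fin.succAbove (1 : Fin (n + 2)) i)) :=
    Fin.strictMono_succAbove 1
  have hm2 : StrictMono (fun i : Fin n => (i.succ : Fin (n + 1))) := Fin.strictMono_succ
  let G : Mon (n + 2) → ℤ := pb T F
  let q : Mon (n + 1) → ℤ := fun p =>
    G ⟨(Fin.succAbove 1 p.1.1, Fin.succAbove 1 p.1.2), hm1.monotone p.2⟩
  let r : Mon n → ℤ := fun p => q ⟨(p.1.1.succ, p.1.2.succ), hm2.monotone p.2⟩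
  have hr : ∀ (R : Type) [CommRing R] (v : Fin n → R), qf (cf R q) (cv 0 v) = qf (cf R r) v := by
    intro R _ v
    rw [qf_restrict _ hm2 (cf R q) (cv 0 v)]
    · rfl
    · intro j hj
      refine Fin.cases (fun _ => rfl) (fun i hi => ?_) j hj
      exact absurd rfl (hi i)
  have hFq : ∀ (R : Type) [CommRing R] (c : R) (v : Fin n → R),
      qf (cf R F) (mv T (pt c 0 v)) = qf (cf R q) (cv c v) := by
    intro R _ c v
    rw [← qf_pb hPBK, qf_restrict _ hm1 (cf R (pb T F)) (pt c 0 v)]
    · congr 1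
      funext i
      refine Fin.cases rfl (fun j => ?_) i
      rfl
    · intro j hj
      refine Fin.cases (fun h => ?_) (fun i => Fin.cases (fun _ => rfl) (fun k h => ?_) i) j hj
      · exact absurd rfl (h 0)
      · exact absurd rfl (h k.succ)
  have hcol : ∀ (R : Type) [CommRing R], mv T (pt (0 : R) 1 (fun _ => 0)) = fun i => (z i : R) := by
    intro R _
    funext i
    unfold mv
    rw [Fin.sum_univ_succ, Fin.sum_univ_succ]
    change (T i 0 : R) * 0 + ((T i 1 : R) * 1 + ∑ j, _ * 0) = _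
    rw [hTz i]
    simp
  have hpt : ∀ (R : Type) [CommRing R] (c y : R) (v : Fin n → R), pt c y v =
      fun i => pt c 0 v i + y * pt (0 : R) 1 (fun _ => 0) i := by
    intro R _ c y v
    funext i
    refine Fin.cases ?_ (fun j => Fin.cases ?_ (fun k => ?_) j) i
    · change c = c + y * 0
      ring
    · change y = 0 + y * 1
      ring
    · change v k = v k + y * 0
      ring
  have hF : ∀ (R : Type) [CommRing R] (c y : R) (v : Fin n → R),
      qf (cf R F) (mv T (pt c y v)) = (mu : R) * c * y + qf (cf R q) (cv c v) := by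
    intro R _ c y v
    have h1 : mv T (pt c y v) = fun i => mv T (pt c 0 v) i + y * (z i : R) := by
      funext i
      rw [hpt R c y v, mv_add, hcol R]
    rw [h1, qf_add, hFq, hbl, mv_mv Ti T hT2]
    have h2 : qf (cf R F) (fun i => (z i : R)) = 0 := by
      rw [← qf_cast, hFz, Int.cast_zero]
    rw [h2]
    change _ + y * ((mu : R) * c) + y ^ 2 * 0 = _
    ring
  refine ⟨⟨T, Ti, hT1, hT2, mu, hmu0, q, r, ?_, hr, hF⟩, fun i => (hTz i).symm,
    fun x => (hbl ℝ x).symm⟩
  -- nondegeneracy
  intro h0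
  rw [← Matrix.exists_mulVec_eq_zero_iff] at h0
  obtain ⟨w, hw0, hw⟩ := h0
  have hcfZ : ∀ (s : ℕ) (g : Mon s → ℤ), cf ℤ g = g := fun s g => by
    funext p
    simp [cf]
  have hrw : ∀ v' : Fin n → ℤ, bl r v' w = 0 := by
    intro v'
    unfold bl
    refine Finset.sum_eq_zero fun i _ => ?_
    have := congrFun hw i
    have h1 : dq r w i = 0 := by
      rw [← Pool.Agent.H13.RQ.Hs_mulVec]
      exact this
    rw [h1, mul_zero]
  -- the vector of the kernel
  obtain ⟨y, hy⟩ : ∃ y : ℤ, y = - bl q (cv 1 (fun _ => 0)) (cv 0 w) := ⟨_, rfl⟩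
  obtain ⟨e, he⟩ : ∃ e : Fin (n + 2) → ℤ, e = pt 0 y (fun i => mu * w i) := ⟨_, rfl⟩
  have hqr : ∀ v' : Fin n → ℤ, bl q (cv 0 v') (cv 0 w) = 0 := by
    intro v'
    have h1 : bl q (cv 0 v') (cv 0 w) =
        qf q (cv 0 (fun i => v' i + 1 * w i)) - qf q (cv 0 v') - qf q (cv 0 w) := by
      have h2 := qf_add q (cv 0 v') (cv 0 w) 1
      have h3 : (fun i => cv (0 : ℤ) v' i + 1 * cv (0 : ℤ) w i) =
          cv 0 (fun i => v' i + 1 * w i) := by
        funext i
        refine Fin.cases ?_ (fun j => ?_) i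
        · change (0 : ℤ) + 1 * 0 = 0
          ring
        · rfl
      rw [h3] at h2
      rw [h2, bl_comm]
      ring
    have h4 := hr ℤ (fun i => v' i + 1 * w i)
    have h5 := hr ℤ v'
    have h6 := hr ℤ w
    rw [hcfZ, hcfZ] at h4 h5 h6
    rw [h1, h4, h5, h6, qf_add, bl_comm, hrw]
    ring
  have hq1 : ∀ (c' : ℤ) (v' : Fin n → ℤ), bl q (cv c' v') (cv 0 w) = - c' * y := by
    intro c' v'
    have h1 : cv c' v' = fun i => cv 0 v' i + c' * cv (1 : ℤ) (fun _ => (0 : ℤ)) i := by
      funext i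
      refine Fin.cases ?_ (fun j => ?_) i
      · change c' = 0 + c' * 1
        ring
      · change v' j = v' j + c' * 0
        ring
    have h2 : bl q (cv c' v') (cv 0 w) =
        bl q (cv 0 v') (cv 0 w) + c' * bl q (cv 1 (fun _ => 0)) (cv 0 w) := by
      rw [bl_eq, bl_eq, bl_eq, Finset.mul_sum, ← Finset.sum_add_distrib, h1]
      exact Finset.sum_congr rfl fun p _ => by ring
    rw [h2, hqr, hy]
    ring
  have hker : ∀ x' : Fin (n + 2) → ℤ, bl F x' (mv T e) = 0 := by
    intro x'
    obtain ⟨e', he'⟩ : ∃ e', e' = mv Ti x' := ⟨_, rfl⟩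
    have hx' : x' = mv T e' := by
      rw [he', mv_mv T Ti hT1]
    have h1 := qf_add F (mv T e') (mv T e) 1
    have h2 : (fun i => mv T e' i + 1 * mv T e i) = mv T (fun i => e' i + 1 * e i) := by
      funext i
      rw [mv_add]
    have h3 : ∀ u : Fin (n + 2) → ℤ, u = pt (u 0) (u 1) (vt u) := by
      intro u
      funext i
      refine Fin.cases rfl (fun j => ?_) i
      exact Fin.cases rfl (fun k => rfl) j
    have hFz' : ∀ c y (v : Fin n → ℤ), qf F (mv T (pt c y v)) = mu * c * y + qf q (cv c v) := by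
      intro c y v
      have := hF ℤ c y v
      rw [hcfZ, hcfZ] at this
      simpa using this
    have h4 : (fun i => e' i + 1 * e i) =
        pt (e' 0) (e' 1 + y) (fun i => vt e' i + mu * w i) := by
      rw [he]
      funext i
      refine Fin.cases ?_ (fun j => Fin.cases ?_ (fun k => ?_) j) i
      · change e' 0 + 1 * 0 = e' 0
        ring
      · change e' 1 + 1 * y = e' 1 + y
        ring
      · change e' k.succ.succ + 1 * (mu * w k) = e' k.succ.succ + mu * w k
        ring
    rw [h2, h4, hFz'] at h1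
    have h5 : qf F (mv T e') = mu * e' 0 * e' 1 + qf q (cv (e' 0) (vt e')) := by
      conv_lhs => rw [h3 e']
      rw [hFz']
    have h6 : qf F (mv T e) = mu * 0 * y + qf q (cv 0 (fun i => mu * w i)) := by
      rw [he, hFz']
    have h7 : qf q (cv (e' 0) (fun i => vt e' i + mu * w i)) =
        qf q (cv (e' 0) (vt e')) + mu * bl q (cv 0 w) (cv (e' 0) (vt e')) +
          mu ^ 2 * qf q (cv 0 w) := by
      rw [← qf_add]
      congr 1
      funext i
      refine Fin.cases ?_ (fun j => ?_) i
      · change e' 0 = e' 0 + mu * 0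
        ring
      · rfl
    have h8 : qf q (cv 0 (fun i => mu * w i)) = mu ^ 2 * qf q (cv 0 w) := by
      unfold qf
      rw [Finset.mul_sum]
      refine Finset.sum_congr rfl fun p _ => ?_
      have h9 : cv (0 : ℤ) (fun i => mu * w i) = fun i => mu * cv (0 : ℤ) w i := by
        funext i
        refine Fin.cases ?_ (fun j => rfl) i
        change (0 : ℤ) = mu * 0
        ring
      rw [h9]
      ring
    rw [h7, bl_comm q, hq1, h5, h6, h8] at h1
    rw [hx', bl_comm]
    linarith
  have hne : mv T e ≠ 0 := by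
    intro h
    have h1 : e = 0 := by
      rw [← mv_mv Ti T hT2 e, h]
      funext i
      simp [mv]
    apply hw0
    funext i
    have h2 := congrFun h1 i.succ.succ
    rw [he] at h2
    change mu * w i = 0 at h2
    rcases mul_eq_zero.mp h2 with h3 | h3
    · exact absurd h3 hmu0
    · exact h3
  apply hdet
  rw [← Matrix.exists_mulVec_eq_zero_iff]
  refine ⟨mv T e, hne, ?_⟩
  funext i
  have h1 := hker (Pi.single i 1)
  have h2 : dq F (mv T e) i = 0 := by
    unfold bl at h1
    simpa [Pi.single_apply] using h1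
  rw [← Pool.Agent.H13.RQ.Hs_mulVec] at h2
  exact h2

end Pool.Agent.H34.HFQ
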